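import Pool.Agent.X143.SD.Stm

set_option autoImplicit false

namespace Pool.Agent.X30.SD

open Finset Pool.Agent.X143.SD

theorem cc_nonneg (s : ℝ) : 0 ≤ cc s := by
  unfold cc
  have h1 : s + 1 ≤ Real.exp s := Real.add_one_le_exp s
  have h2 : (1 + s) * Real.exp (-s) ≤ Real.exp s * Real.exp (-s) :=
    mul_le_mul_of_nonneg_right (by linarith) (Real.exp_pos _).le
  rw [← Real.exp_add, add_neg_cancel, Real.exp_zero] at h2
  linarith

theorem cc_le_one (s : ℝ) (hs : 0 ≤ s) : cc s ≤ 1 := by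
  unfold cc
  have : 0 ≤ (1 + s) * Real.exp (-s) := by positivity
  linarith

theorem cc_cont : Continuous cc := by
  unfold cc
  fun_prop

theorem PP_cont (d : ℕ) : Continuous (PP d) := by
  unfold PP
  fun_prop

theorem PP_ge (d : ℕ) (hd : 1 ≤ d) (x : ℝ) (hx : 0 ≤ x) : 1 ≤ PP d x := by
  unfold PP
  obtain ⟨e, rfl⟩ : ∃ e, d = e + 1 := ⟨d - 1, by omega⟩
  rw [sum_range_succ']
  have : 0 ≤ ∑ k ∈ range e, x ^ (k + 1) := sum_nonneg (fun k _ => by positivity)
  simp
  linarith

theorem PP_le (d : ℕ) (x : ℝ) (hx : 0 ≤ x) (hx1 : x ≤ 1) : PP d x ≤ d := by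
  unfold PP
  calc ∑ j ∈ range d, x ^ j ≤ ∑ _j ∈ range d, (1 : ℝ) :=
        sum_le_sum (fun j _ => pow_le_one₀ hx hx1)
    _ = d := by simp

theorem pow_lip (j : ℕ) (x y : ℝ) (hx : 0 ≤ x) (hx1 : x ≤ 1) (hy : 0 ≤ y) (hy1 : y ≤ 1) :
    |x ^ j - y ^ j| ≤ j * |x - y| := by
  induction j with
  | zero => simp
  | succ j ih =>
    have h1 : x ^ (j + 1) - y ^ (j + 1) = x * (x ^ j - y ^ j) + (x - y) * y ^ j := by ring
    rw [h1]
    refine (abs_add_le _ _).trans ?_
    rw [abs_mul, abs_mul, abs_of_nonneg hx, abs_of_nonneg (pow_nonneg hy j)]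
    have h2 : x * |x ^ j - y ^ j| ≤ 1 * (j * |x - y|) :=
      mul_le_mul hx1 ih (abs_nonneg _) zero_le_one
    have h3 : |x - y| * y ^ j ≤ |x - y| * 1 :=
      mul_le_mul_of_nonneg_left (pow_le_one₀ hy hy1) (abs_nonneg _)
    push_cast
    linarith

theorem PP_lip (d : ℕ) (x y : ℝ) (hx : 0 ≤ x) (hx1 : x ≤ 1) (hy : 0 ≤ y) (hy1 : y ≤ 1) :
    |PP d x - PP d y| ≤ (d : ℝ) ^ 2 * |x - y| := by
  unfold PP
  rw [← sum_sub_distrib]
  refine (abs_sum_le_sum_abs _ _).trans ?_
  calc ∑ j ∈ range d, |x ^ j - y ^ j| ≤ ∑ _j ∈ range d, (d : ℝ) * |x - y| := by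
        apply sum_le_sum
        intro j hj
        refine (pow_lip j x y hx hx1 hy hy1).trans ?_
        have : (j : ℝ) ≤ d := by exact_mod_cast (mem_range.1 hj).le
        exact mul_le_mul_of_nonneg_right this (abs_nonneg _)
    _ = (d : ℝ) ^ 2 * |x - y| := by
        rw [sum_const, card_range, nsmul_eq_mul]
        ring

theorem exp_neg_le (h : ℝ) (hh : 0 ≤ h) : |Real.exp (-h) - 1| ≤ h := by
  have h1 := Real.add_one_le_exp (-h)
  have h2 : Real.exp (-h) ≤ 1 := Real.exp_le_one_iff.2 (by linarith)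
  rw [abs_le]
  constructor <;> linarith

theorem exp_neg_le2 (h : ℝ) (hh : 0 ≤ h) : |Real.exp (-h) - 1 + h| ≤ h ^ 2 := by
  have h1 := Real.add_one_le_exp (-h)
  have h3 := Real.add_one_le_exp h
  -- exp(-h) ≤ 1 / (1 + h) ≤ 1 - h + h^2
  have h4 : Real.exp (-h) * (1 + h) ≤ 1 := by
    have := mul_le_mul_of_nonneg_left h3 (Real.exp_pos (-h)).le
    rw [← Real.exp_add, neg_add_cancel, Real.exp_zero] at this
    linarith
  have h5 : Real.exp (-h) ≤ 1 - h + h ^ 2 := by
    by_contra hcon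
    push Not at hcon
    have : (1 - h + h ^ 2) * (1 + h) < Real.exp (-h) * (1 + h) :=
      mul_lt_mul_of_pos_right hcon (by linarith)
    nlinarith [pow_nonneg hh 3]
  rw [abs_le]
  constructor
  · nlinarith
  · linarith

theorem cc_lip (s t : ℝ) (hs : 0 ≤ s) (ht : s ≤ t) : |cc t - cc s| ≤ t - s := by
  unfold cc
  -- cc t - cc s = e^{-s} [ (1+s) - (1+t) e^{-h} ], h = t - s
  obtain ⟨h, hh, rfl⟩ : ∃ h, 0 ≤ h ∧ t = s + h := ⟨t - s, by linarith, by ring⟩
  have h1 := exp_neg_le h hh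
  have e1 : Real.exp (-(s + h)) = Real.exp (-s) * Real.exp (-h) := by
    rw [← Real.exp_add]; ring_nf
  have h6 : (1 + s) * Real.exp (-s) ≤ 1 := by
    have := cc_nonneg s
    unfold cc at this
    linarith
  have h7 : Real.exp (-s) ≤ 1 := Real.exp_le_one_iff.2 (by linarith)
  have h8 := Real.exp_pos (-s)
  have h9 := Real.exp_pos (-h)
  have h10 : Real.exp (-h) ≤ 1 := Real.exp_le_one_iff.2 (by linarith)
  rw [e1]
  have h11 : 1 - (1 + (s + h)) * (Real.exp (-s) * Real.exp (-h)) - (1 - (1 + s) * Real.exp (-s))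
      = ((1 + s) * Real.exp (-s)) * (1 - Real.exp (-h)) - h * (Real.exp (-s) * Real.exp (-h)) := by
    ring
  rw [h11]
  have h12 : 0 ≤ (1 + s) * Real.exp (-s) := by positivity
  have h13 : 1 - Real.exp (-h) ≤ h := by
    have := Real.add_one_le_exp (-h)
    linarith
  have h14 : 0 ≤ 1 - Real.exp (-h) := by linarith
  have h15 : ((1 + s) * Real.exp (-s)) * (1 - Real.exp (-h)) ≤ 1 * h :=
    mul_le_mul h6 h13 h14 zero_le_one
  have h16 : 0 ≤ ((1 + s) * Real.exp (-s)) * (1 - Real.exp (-h)) := mul_nonneg h12 h14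
  have h17 : Real.exp (-s) * Real.exp (-h) ≤ 1 := mul_le_one₀ h7 h9.le h10
  have h18 : 0 ≤ h * (Real.exp (-s) * Real.exp (-h)) := by positivity
  have h19 : h * (Real.exp (-s) * Real.exp (-h)) ≤ h * 1 := mul_le_mul_of_nonneg_left h17 hh
  rw [abs_le]
  constructor <;> linarith

theorem TT_deriv (d : ℕ) (hd : 1 ≤ d) (u : ℝ) : HasDerivAt (TT d) (1 / PP d (cc u)) u := by
  have hc : Continuous (fun s : ℝ => 1 / PP d (cc s)) := by
    apply Continuous.div continuous_const ((PP_cont d).comp cc_cont)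
    intro x
    have := PP_ge d hd (cc x) (cc_nonneg x)
    simp only [Function.comp]
    linarith
  exact intervalIntegral.integral_hasDerivAt_right (hc.intervalIntegrable _ _)
    (hc.stronglyMeasurableAtFilter _ _) hc.continuousAt

theorem TT_zero (d : ℕ) : TT d 0 = 0 := by
  unfold TT
  simp

/-- mean value -/
theorem TT_mvt (d : ℕ) (hd : 1 ≤ d) (u v : ℝ) (huv : u < v) :
    ∃ ξ, u < ξ ∧ ξ < v ∧ v - u = PP d (cc ξ) * (TT d v - TT d u) := by
  obtain ⟨ξ, hξ, h⟩ := exists_hasDerivAt_eq_slope (TT d) (fun x => 1 / PP d (cc x)) huv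
    (fun x _ => (TT_deriv d hd x).continuousAt.continuousWithinAt)
    (fun x _ => TT_deriv d hd x)
  refine ⟨ξ, hξ.1, hξ.2, ?_⟩
  have h1 : 0 < v - u := by linarith
  have h2 := PP_ge d hd (cc ξ) (cc_nonneg ξ)
  have h3 : 0 < PP d (cc ξ) := by linarith
  field_simp at h
  linarith

theorem TT_mono (d : ℕ) (hd : 1 ≤ d) : StrictMono (TT d) := by
  intro u v huv
  obtain ⟨ξ, _, _, h⟩ := TT_mvt d hd u v huv
  have h2 := PP_ge d hd (cc ξ) (cc_nonneg ξ)
  by_contra hcon
  push Not at hcon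
  have : PP d (cc ξ) * (TT d v - TT d u) ≤ 0 :=
    mul_nonpos_of_nonneg_of_nonpos (by linarith) (by linarith)
  linarith

theorem TT_surj (d : ℕ) (hd : 1 ≤ d) (t : ℝ) (ht : 0 ≤ t) : ∃ u, 0 ≤ u ∧ TT d u = t := by
  have hcont : ContinuousOn (TT d) (Set.Icc 0 (d * t + 1)) :=
    fun x _ => (TT_deriv d hd x).continuousAt.continuousWithinAt
  have hpos : (0 : ℝ) < d * t + 1 := by positivity
  have hbig : t ≤ TT d (d * t + 1) := by
    obtain ⟨ξ, h1, h2, h3⟩ := TT_mvt d hd 0 (d * t + 1) hpos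
    rw [TT_zero] at h3
    have h4 := PP_le d (cc ξ) (cc_nonneg ξ) (cc_le_one ξ h1.le)
    have h5 := PP_ge d hd (cc ξ) (cc_nonneg ξ)
    have h6 : 0 ≤ TT d (d * t + 1) := by
      have := (TT_mono d hd).monotone hpos.le
      rwa [TT_zero] at this
    have h7 : PP d (cc ξ) * (TT d (d * t + 1) - 0) ≤ d * TT d (d * t + 1) := by
      rw [sub_zero]
      exact mul_le_mul_of_nonneg_right h4 h6
    have hd' : (1 : ℝ) ≤ d := by exact_mod_cast hd
    by_contra hcon
    push Not at hcon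
    have : (d : ℝ) * TT d (d * t + 1) ≤ d * t := mul_le_mul_of_nonneg_left hcon.le (by linarith)
    linarith
  have := intermediate_value_Icc hpos.le hcont
  obtain ⟨u, hu, hut⟩ := this ⟨by rw [TT_zero]; exact ht, hbig⟩
  exact ⟨u, hu.1, hut⟩

theorem t_ODE : S_ODE := by
  intro d hd
  have hd' : (1 : ℝ) ≤ d := by exact_mod_cast hd
  have hex : ∀ t : ℝ, ∃ u : ℝ, 0 ≤ t → 0 ≤ u ∧ TT d u = t := by
    intro t
    by_cases ht : 0 ≤ t
    · obtain ⟨u, h⟩ := TT_surj d hd t ht
      exact ⟨u, fun _ => h⟩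
    · exact ⟨0, fun h => absurd h ht⟩
  choose u hu using hex
  have hmono : ∀ s t, 0 ≤ s → s < t → u s < u t := by
    intro s t hs hst
    have h1 := hu s hs
    have h2 := hu t (hs.trans hst.le)
    by_contra hcon
    push Not at hcon
    have := (TT_mono d hd).monotone hcon
    rw [h1.2, h2.2] at this
    linarith
  -- key estimate
  have hkey : ∀ s t, 0 ≤ s → s < t → ∃ ξ, u s ≤ ξ ∧ ξ ≤ u t ∧ u t - u s = PP d (cc ξ) * (t - s) := by
    intro s t hs hst
    obtain ⟨ξ, h1, h2, h3⟩ := TT_mvt d hd (u s) (u t) (hmono s t hs hst)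
    rw [(hu s hs).2, (hu t (hs.trans hst.le)).2] at h3
    exact ⟨ξ, h1.le, h2.le, h3⟩
  have hlip : ∀ s t, 0 ≤ s → s < t → u t - u s ≤ d * (t - s) := by
    intro s t hs hst
    obtain ⟨ξ, h1, h2, h3⟩ := hkey s t hs hst
    rw [h3]
    have h0 : 0 ≤ ξ := (hu s hs).1.trans h1
    exact mul_le_mul_of_nonneg_right (PP_le d (cc ξ) (cc_nonneg ξ) (cc_le_one ξ h0)) (by linarith)
  have hloc : ∀ s t, 0 ≤ s → s < t →
      |u t - u s - PP d (cc (u s)) * (t - s)| ≤ (d : ℝ) ^ 3 * (t - s) ^ 2 := by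
    intro s t hs hst
    obtain ⟨ξ, h1, h2, h3⟩ := hkey s t hs hst
    have h0 : 0 ≤ u s := (hu s hs).1
    have h0' : 0 ≤ ξ := h0.trans h1
    rw [h3, ← sub_mul, abs_mul, abs_of_pos (show (0 : ℝ) < t - s by linarith)]
    have h4 := PP_lip d (cc ξ) (cc (u s)) (cc_nonneg _) (cc_le_one _ h0') (cc_nonneg _)
      (cc_le_one _ h0)
    have h5 := cc_lip (u s) ξ h0 h1
    have h6 := hlip s t hs hst
    have h7 : |PP d (cc ξ) - PP d (cc (u s))| ≤ (d : ℝ) ^ 2 * (d * (t - s)) := by
      refine h4.trans (mul_le_mul_of_nonneg_left ?_ (by positivity))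
      linarith
    calc |PP d (cc ξ) - PP d (cc (u s))| * (t - s) ≤ ((d : ℝ) ^ 2 * (d * (t - s))) * (t - s) :=
          mul_le_mul_of_nonneg_right h7 (by linarith)
      _ = (d : ℝ) ^ 3 * (t - s) ^ 2 := by ring
  refine ⟨u, ?_, fun t ht => hu t ht, 2 * (d : ℝ) ^ 2 + (d : ℝ) ^ 3, by positivity, ?_⟩
  · -- continuity
    have hL : LipschitzOnWith (Real.toNNReal d) u (Set.Ici 0) := by
      apply LipschitzOnWith.of_dist_le_mul
      intro x hx y hy
      rw [Real.coe_toNNReal _ (by positivity), Real.dist_eq, Real.dist_eq]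
      rcases lt_trichotomy x y with h | h | h
      · have h1 := hlip x y hx h
        have h2 := hmono x y hx h
        rw [abs_sub_comm, abs_of_pos (by linarith : 0 < u y - u x), abs_sub_comm x y,
          abs_of_pos (by linarith : 0 < y - x)]
        exact h1
      · subst h
        simp
      · have h1 := hlip y x hy h
        have h2 := hmono y x hy h
        rw [abs_of_pos (by linarith : 0 < u x - u y), abs_of_pos (by linarith : 0 < x - y)]
        exact h1
    exact hL.continuousOn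
  · intro n hn
    have hn' : (0 : ℝ) < n := by exact_mod_cast hn
    have hu0 : u 0 = 0 := by
      have h1 := hu 0 le_rfl
      exact (TT_mono d hd).injective (by rw [h1.2, TT_zero])
    have hpos : ∀ i : ℕ, (0 : ℝ) ≤ (i : ℝ) / n := fun i => by positivity
    refine ⟨by simp [hu0], by simp [hu0], ?_, ?_⟩
    · intro i _
      have h1 := (hu _ (hpos i)).1
      have h2 := cc_nonneg (u ((i : ℝ) / n))
      unfold cc at h2
      refine ⟨(Real.exp_pos _).le, mul_nonneg h1 (Real.exp_pos _).le, ?_⟩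
      linarith
    · intro i _
      have hst : (i : ℝ) / n < ((i + 1 : ℕ) : ℝ) / n := by
        apply div_lt_div_of_pos_right _ hn'
        push_cast
        linarith
      have hd1 : ((i + 1 : ℕ) : ℝ) / n - (i : ℝ) / n = 1 / n := by
        push_cast
        ring
      have hA := hloc _ _ (hpos i) hst
      have hB := hlip _ _ (hpos i) hst
      have hC := hmono _ _ (hpos i) hst
      rw [hd1] at hA hB
      have hE := (hu _ (hpos i)).1
      dsimp only
      set v := u ((i : ℝ) / n) with hv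
      set w := u (((i + 1 : ℕ) : ℝ) / n) with hw
      obtain ⟨h, hh⟩ : ∃ h, h = w - v := ⟨_, rfl⟩
      have hh0 : 0 ≤ h := by linarith
      have hwv : w = v + h := by linarith
      have hhn : h ≤ d * (1 / n) := by linarith
      have hh2 : h ^ 2 ≤ (d : ℝ) ^ 2 / (n : ℝ) ^ 2 := by
        calc h ^ 2 ≤ ((d : ℝ) * (1 / n)) ^ 2 := pow_le_pow_left₀ hh0 hhn 2
          _ = (d : ℝ) ^ 2 / (n : ℝ) ^ 2 := by ring
      have hcc : 1 - Real.exp (-v) - v * Real.exp (-v) = cc v := by
        unfold cc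
        ring
      rw [hcc]
      set P := PP d (cc v) with hP
      have hA' : |h - P / n| ≤ (d : ℝ) ^ 3 / (n : ℝ) ^ 2 := by
        have : h - P / n = w - v - P * (1 / n) := by rw [hh]; ring
        rw [this]
        refine hA.trans (le_of_eq ?_)
        ring
      have e1 : Real.exp (-w) = Real.exp (-v) * Real.exp (-h) := by
        rw [← Real.exp_add, hwv]; ring_nf
      have hv1 : Real.exp (-v) ≤ 1 := Real.exp_le_one_iff.2 (by linarith)
      have hvp := Real.exp_pos (-v)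
      have hvv : v * Real.exp (-v) ≤ 1 := by
        have := cc_nonneg v
        unfold cc at this
        nlinarith
      have hvv0 : 0 ≤ v * Real.exp (-v) := by positivity
      have hx1 := exp_neg_le h hh0
      have hx2 := exp_neg_le2 h hh0
      have hK : (d : ℝ) ^ 2 / (n : ℝ) ^ 2 + (d : ℝ) ^ 3 / (n : ℝ) ^ 2 ≤
          (2 * (d : ℝ) ^ 2 + (d : ℝ) ^ 3) / (n : ℝ) ^ 2 := by
        rw [← add_div]
        apply div_le_div_of_nonneg_right _ (by positivity)
        nlinarith [sq_nonneg (d : ℝ)]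
      constructor
      · have h1 : Real.exp (-w) - (Real.exp (-v) - Real.exp (-v) * P / n) =
            Real.exp (-v) * (Real.exp (-h) - 1 + h) - Real.exp (-v) * (h - P / n) := by
          rw [e1]; ring
        rw [h1]
        refine (abs_sub _ _).trans ?_
        rw [abs_mul, abs_mul, abs_of_pos hvp]
        have h2 : Real.exp (-v) * |Real.exp (-h) - 1 + h| ≤ 1 * h ^ 2 :=
          mul_le_mul hv1 hx2 (abs_nonneg _) zero_le_one
        have h3 : Real.exp (-v) * |h - P / n| ≤ 1 * ((d : ℝ) ^ 3 / (n : ℝ) ^ 2) :=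
          mul_le_mul hv1 hA' (abs_nonneg _) zero_le_one
        linarith
      · have h1 : w * Real.exp (-w) - (v * Real.exp (-v) +
            (Real.exp (-v) - v * Real.exp (-v)) * P / n) =
            (v * Real.exp (-v)) * (Real.exp (-h) - 1 + h) +
              Real.exp (-v) * (h * (Real.exp (-h) - 1)) +
              (Real.exp (-v) - v * Real.exp (-v)) * (h - P / n) := by
          rw [e1, hwv]; ring
        rw [h1]
        refine (abs_add_three _ _ _).trans ?_
        rw [abs_mul (v * Real.exp (-v)), abs_of_nonneg hvv0, abs_mul (Real.exp (-v)),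
          abs_of_pos hvp, abs_mul h, abs_of_nonneg hh0, abs_mul (Real.exp (-v) - v * Real.exp (-v))]
        have h2 : (v * Real.exp (-v)) * |Real.exp (-h) - 1 + h| ≤ 1 * h ^ 2 :=
          mul_le_mul hvv hx2 (abs_nonneg _) zero_le_one
        have h3 : Real.exp (-v) * (h * |Real.exp (-h) - 1|) ≤ 1 * (h * h) :=
          mul_le_mul hv1 (mul_le_mul_of_nonneg_left hx1 hh0) (by positivity) zero_le_one
        have h4 : |Real.exp (-v) - v * Real.exp (-v)| ≤ 1 := by
          rw [abs_le]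
          constructor <;> linarith
        have h5 : |Real.exp (-v) - v * Real.exp (-v)| * |h - P / n| ≤
            1 * ((d : ℝ) ^ 3 / (n : ℝ) ^ 2) :=
          mul_le_mul h4 hA' (abs_nonneg _) zero_le_one
        have h6 : (2 * (d : ℝ) ^ 2 + (d : ℝ) ^ 3) / (n : ℝ) ^ 2 =
            (d : ℝ) ^ 2 / (n : ℝ) ^ 2 + (d : ℝ) ^ 2 / (n : ℝ) ^ 2 +
              (d : ℝ) ^ 3 / (n : ℝ) ^ 2 := by ring
        rw [h6]
        nlinarith
end Pool.Agent.X30.SD
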